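import Pool.Agent.Helper96.OP.Defs

/-!
Cuts of the Cayley graph of a tuple in a free group: elementary properties (MP_2214fc_al,
module C1).
-/

set_option autoImplicit false

set_option linter.unusedSectionVars false

open Finset

namespace Pool.Agent.Helper7.OP

open Pool.Agent.Helper96.OP

variable {ι : Type}

private lemma red_rel {x y : Ltr ι} : (x.1 = y.1 → x.2 = y.2) ↔ y ≠ inv x := by
  obtain ⟨i, b⟩ := x
  obtain ⟨j, c⟩ := y
  simp only [inv, ne_eq, Prod.mk.injEq, not_and]
  constructor
  · rintro h1 rfl h2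
    have := h1 rfl
    subst this
    cases b <;> simp at h2
  · rintro h1 rfl
    have := h1 rfl
    cases b <;> cases c <;> simp_all

lemma red_cons {a : Ltr ι} {L : List (ι × Bool)} :
    FreeGroup.IsReduced (a :: L) ↔ L.head? ≠ some (inv a) ∧ FreeGroup.IsReduced L := by
  cases L with
  | nil => simp
  | cons b L =>
    rw [FreeGroup.isReduced_cons_cons, red_rel]
    simp

lemma red_concat {a : Ltr ι} {L : List (ι × Bool)} :
    FreeGroup.IsReduced (L ++ [a]) ↔ L.getLast? ≠ some (inv a) ∧ FreeGroup.IsReduced L := by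
  rw [FreeGroup.IsReduced, List.isChain_append, ← FreeGroup.IsReduced]
  constructor
  · rintro ⟨h1, -, h2⟩
    refine ⟨fun h => ?_, h1⟩
    have := h2 (inv a) h a (by simp)
    rw [red_rel, inv_inv] at this
    exact this rfl
  · rintro ⟨h1, h2⟩
    refine ⟨h2, by simp, fun x hx y hy => ?_⟩
    simp only [List.head?_cons, Option.mem_def, Option.some.injEq] at hy
    subst hy
    rw [red_rel]
    rintro rfl
    rw [inv_inv] at h1
    exact h1 hx

lemma mk_concat (L : List (ι × Bool)) (a : Ltr ι) :
    FreeGroup.mk (L ++ [a]) = FreeGroup.mk L * el a := rfl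

lemma mk_cons (L : List (ι × Bool)) (a : Ltr ι) :
    FreeGroup.mk (a :: L) = el a * FreeGroup.mk L := rfl

variable [DecidableEq ι]

lemma toWord_mk_of_red {L : List (ι × Bool)} (h : FreeGroup.IsReduced L) :
    (FreeGroup.mk L).toWord = L := by
  rw [FreeGroup.toWord_mk, h.reduce_eq]

lemma fl_mk {L : List (ι × Bool)} (h : FreeGroup.IsReduced L) : fl (FreeGroup.mk L) = L.head? := by
  rw [fl, toWord_mk_of_red h]

@[simp] lemma fl_one : fl (1 : FreeGroup ι) = none := by
  simp [fl]

lemma fl_eq_none {g : FreeGroup ι} : fl g = none ↔ g = 1 := by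
  rw [fl, List.head?_eq_none_iff, FreeGroup.toWord_eq_nil_iff]

lemma fl_el (x : Ltr ι) : fl (el x) = some x := by
  rw [el, fl_mk FreeGroup.IsReduced.singleton]
  rfl

/-- a group element is given by a reduced word -/
lemma exists_red (g : FreeGroup ι) : ∃ L, FreeGroup.IsReduced L ∧ g = FreeGroup.mk L ∧ g.toWord = L :=
  ⟨g.toWord, FreeGroup.isReduced_toWord, FreeGroup.mk_toWord.symm, rfl⟩

lemma toWord_cons {a : Ltr ι} {g : FreeGroup ι} (h : fl g ≠ some (inv a)) :
    (el a * g).toWord = a :: g.toWord := by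
  obtain ⟨L, hL, rfl, hw⟩ := exists_red g
  rw [← mk_cons, toWord_mk_of_red hL, toWord_mk_of_red]
  rw [fl, hw] at h
  exact red_cons.2 ⟨h, hL⟩

/-- left multiplication by a letter -/
lemma fl_el_mul (a : Ltr ι) (g : FreeGroup ι) : fl (el a * g) = some a ↔ fl g ≠ some (inv a) := by
  constructor
  · intro h h1
    obtain ⟨L, hL, rfl, hw⟩ := exists_red g
    rw [fl_mk hL] at h1
    cases L with
    | nil => simp at h1
    | cons b L =>
      simp only [List.head?_cons, Option.some.injEq] at h1
      subst h1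
      rw [red_cons, inv_inv] at hL
      rw [mk_cons, el_inv, mul_inv_cancel_left, fl_mk hL.2] at h
      exact hL.1 h
  · intro h
    rw [fl, toWord_cons h]
    rfl

/-- right multiplication by a letter -/
lemma fl_mul_el (g : FreeGroup ι) (y : Ltr ι) (h1 : g ≠ 1) (h2 : g ≠ el (inv y)) :
    fl (g * el y) = fl g := by
  obtain ⟨L, hL, rfl, hw⟩ := exists_red g
  rcases List.eq_nil_or_concat L with rfl | ⟨M, z, rfl⟩
  · exact absurd rfl h1
  · rw [List.concat_eq_append] at *
    by_cases hz : z = inv y
    · subst hz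
      rw [mk_concat, el_inv, inv_mul_cancel_right, ← el_inv, ← mk_concat, fl_mk hL,
        fl_mk (red_concat.1 hL).2]
      have hM : M ≠ [] := by
        rintro rfl
        exact h2 rfl
      rw [List.head?_append_of_ne_nil _ hM]
    · have hr : FreeGroup.IsReduced ((M ++ [z]) ++ [y]) := by
        rw [red_concat]
        refine ⟨?_, hL⟩
        simpa using hz
      rw [← mk_concat, fl_mk hL, fl_mk hr]
      rw [List.head?_append_of_ne_nil _ (by simp)]

/-- the elements where the first letter changes under right multiplication by a letter -/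
lemma fl_mul_el_ne {g : FreeGroup ι} {y : Ltr ι} (h : fl (g * el y) ≠ fl g) :
    g = 1 ∨ g = el (inv y) := by
  by_contra h1
  push Not at h1
  exact h (fl_mul_el g y h1.1 h1.2)

/-- induction on the right -/
lemma ind_right {P : FreeGroup ι → Prop} (h1 : P 1)
    (hs : ∀ (g : FreeGroup ι) (y : Ltr ι), P g → g.toWord.getLast? ≠ some (inv y) →
      (g * el y).toWord = g.toWord ++ [y] → P (g * el y)) (g : FreeGroup ι) : P g := by
  obtain ⟨L, hL, rfl, hw⟩ := exists_red g
  clear hw
  induction L using List.reverseRecOn with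
  | nil => exact h1
  | append_singleton L y ih =>
    have h2 := red_concat.1 hL
    rw [mk_concat]
    apply hs _ _ (ih h2.2)
    · rw [toWord_mk_of_red h2.2]
      exact h2.1
    · rw [← mk_concat, toWord_mk_of_red hL, toWord_mk_of_red h2.2]

variable [Fintype ι]

/-- finiteness of the coboundary of a half space -/
theorem cut_finite (w : FreeGroup ι) (A : Finset (Option (Ltr ι))) :
    {g : FreeGroup ι | ¬ (g ∈ hs A ↔ g * w ∈ hs A)}.Finite := by
  induction w using ind_right with
  | h1 => simp
  | hs w y ih _ _ =>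
    have hf : ((fun g => g * w) ⁻¹' {1, el (inv y)}).Finite :=
      Set.Finite.preimage (mul_left_injective w).injOn (by simp)
    apply (ih.union hf).subset
    intro g hg
    by_contra h
    simp only [Set.mem_union, not_or] at h
    obtain ⟨h1, h2⟩ := h
    apply hg
    rw [Set.mem_ofPred_eq, not_not] at h1
    rw [h1]
    have h3 : fl (g * w * el y) = fl (g * w) := by
      by_contra h4
      exact h2 (fl_mul_el_ne h4)
    simp only [hs, Set.mem_ofPred_eq]
    rw [← mul_assoc, h3]

theorem cut_compl (w : ι → FreeGroup ι) (K : Set (FreeGroup ι)) : cut w Kᶜ = cut w K := by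
  unfold cut
  refine Finset.sum_congr rfl fun i _ => ?_
  congr 1
  ext g
  simp only [Set.mem_compl_iff, Set.mem_ofPred_eq]
  tauto

/-- left translation -/
theorem cut_smul (w : ι → FreeGroup ι) (K : Set (FreeGroup ι)) (b : FreeGroup ι) :
    cut w {g | b * g ∈ K} = cut w K := by
  unfold cut
  refine Finset.sum_congr rfl fun i _ => ?_
  have h : {g : FreeGroup ι | ¬ (g ∈ K ↔ g * w i ∈ K)} =
      (fun g => b * g) '' {g | ¬ (g ∈ {g | b * g ∈ K} ↔ g * w i ∈ {g | b * g ∈ K})} := by
    ext g
    simp only [Set.mem_image, Set.mem_ofPred_eq]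
    constructor
    · intro h
      exact ⟨b⁻¹ * g, by simpa [mul_assoc] using h, by simp⟩
    · rintro ⟨h, h1, rfl⟩
      rwa [mul_assoc]
  rw [h, Set.ncard_image_of_injective _ (mul_right_injective b)]

theorem cut_aut (w : ι → FreeGroup ι) (K : Set (FreeGroup ι)) (α : MulAut (FreeGroup ι)) :
    cut (fun i => α (w i)) K = cut w {g | α g ∈ K} := by
  unfold cut
  refine Finset.sum_congr rfl fun i _ => ?_
  have h : {g : FreeGroup ι | ¬ (g ∈ K ↔ g * α (w i) ∈ K)} =
      (fun g => α g) '' {g | ¬ (g ∈ {g | α g ∈ K} ↔ g * w i ∈ {g | α g ∈ K})} := by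
    ext g
    simp only [Set.mem_image, Set.mem_ofPred_eq]
    constructor
    · intro h
      exact ⟨α⁻¹ g, by simpa using h, by simp⟩
    · rintro ⟨h, h1, rfl⟩
      rwa [← map_mul α]
  rw [h, Set.ncard_image_of_injective _ (MulEquiv.injective α)]

theorem cut_submod (w : ι → FreeGroup ι) (K L : Set (FreeGroup ι))
    (hK : ∀ i, {g : FreeGroup ι | ¬ (g ∈ K ↔ g * w i ∈ K)}.Finite)
    (hL : ∀ i, {g : FreeGroup ι | ¬ (g ∈ L ↔ g * w i ∈ L)}.Finite) :
    cut w (K ∩ L) + cut w (K ∪ L) ≤ cut w K + cut w L := by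
  unfold cut
  rw [← Finset.sum_add_distrib, ← Finset.sum_add_distrib]
  refine Finset.sum_le_sum fun i _ => ?_
  set DK := {g : FreeGroup ι | ¬ (g ∈ K ↔ g * w i ∈ K)} with hDK
  set DL := {g : FreeGroup ι | ¬ (g ∈ L ↔ g * w i ∈ L)} with hDL
  set DI := {g : FreeGroup ι | ¬ (g ∈ K ∩ L ↔ g * w i ∈ K ∩ L)} with hDI
  set DU := {g : FreeGroup ι | ¬ (g ∈ K ∪ L ↔ g * w i ∈ K ∪ L)} with hDU
  have h1 : DI ∪ DU ⊆ DK ∪ DL := by
    intro g
    simp only [hDK, hDL, hDI, hDU, Set.mem_union, Set.mem_inter_iff, Set.mem_ofPred_eq]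
    tauto
  have h2 : DI ∩ DU ⊆ DK ∩ DL := by
    intro g
    simp only [hDK, hDL, hDI, hDU, Set.mem_union, Set.mem_inter_iff, Set.mem_ofPred_eq]
    tauto
  have hu : (DK ∪ DL).Finite := (hK i).union (hL i)
  have hf1 : DI.Finite := hu.subset (Set.subset_union_left.trans h1)
  have hf2 : DU.Finite := hu.subset (Set.subset_union_right.trans h1)
  rw [← Set.ncard_union_add_ncard_inter DI DU hf1 hf2,
    ← Set.ncard_union_add_ncard_inter DK DL (hK i) (hL i)]
  exact Nat.add_le_add (Set.ncard_le_ncard h1 hu)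
    (Set.ncard_le_ncard h2 (hu.subset (Set.inter_subset_left.trans Set.subset_union_left)))

lemma hs_compl (A : Finset (Option (Ltr ι))) : hs Aᶜ = (hs A)ᶜ := by
  ext g
  simp [hs]

theorem cut_hs_compl (w : ι → FreeGroup ι) (A : Finset (Option (Ltr ι))) :
    cut w (hs Aᶜ) = cut w (hs A) := by
  rw [hs_compl, cut_compl]

theorem cut_hs_submod (w : ι → FreeGroup ι) (A B : Finset (Option (Ltr ι))) :
    cut w (hs (A ∩ B)) + cut w (hs (A ∪ B)) ≤ cut w (hs A) + cut w (hs B) := by
  have h1 : hs (A ∩ B) = hs A ∩ hs B := by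
    ext g
    simp [hs]
  have h2 : hs (A ∪ B) = hs A ∪ hs B := by
    ext g
    simp [hs]
  rw [h1, h2]
  exact cut_submod w _ _ (fun i => cut_finite _ _) fun i => cut_finite _ _

theorem cut_hs_inv (w : ι → FreeGroup ι) (a : Ltr ι) :
    cut w (hs {some (inv a)}) = cut w (hs {some a}) := by
  rw [← cut_compl w (hs {some a}), ← cut_smul w (hs {some a})ᶜ (el a)]
  congr 1
  ext g
  simp only [hs, Finset.mem_singleton, Set.mem_ofPred_eq, Set.mem_compl_iff, fl_el_mul, ne_eq,
    not_not]

private lemma fl_inv_eq (w : FreeGroup ι) (y : Ltr ι) :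
    fl w⁻¹ = some y ↔ w.toWord.getLast? = some (inv y) := by
  rw [fl, FreeGroup.toWord_inv, FreeGroup.invRev, List.head?_reverse, List.getLast?_map]
  cases h : w.toWord.getLast? with
  | none => simp
  | some z =>
    simp only [Option.map_some, Option.some.injEq]
    exact inv_eq_iff (x := z) (y := y)

/-- one step of the length formula -/
private lemma ncard_step (w : FreeGroup ι) (y : Ltr ι) (i : ι)
    (h1 : w.toWord.getLast? ≠ some (inv y)) :
    {g : FreeGroup ι | ¬ (g ∈ hs {some (i, true)} ↔ g * (w * el y) ∈ hs {some (i, true)})}.ncard =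
      {g : FreeGroup ι | ¬ (g ∈ hs {some (i, true)} ↔ g * w ∈ hs {some (i, true)})}.ncard +
        if i = y.1 then 1 else 0 := by
  set x : Ltr ι := (i, true) with hx
  have hw : fl w⁻¹ ≠ some y := fun h => h1 ((fl_inv_eq w y).1 h)
  have hfin := cut_finite w {some x}
  -- membership in the half space
  have hm : ∀ h : FreeGroup ι, h ∈ hs {some x} ↔ fl h = some x := fun h => by simp [hs]
  simp only [hm] at hfin ⊢
  have hstep : ∀ h : FreeGroup ι, ¬ (h = 1 ∧ x = y) → ¬ (h = el (inv y) ∧ x = inv y) →
      (fl (h * el y) = some x ↔ fl h = some x) := by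
    intro h ha hb
    by_cases h2 : fl (h * el y) = fl h
    · rw [h2]
    · rcases fl_mul_el_ne h2 with rfl | rfl
      · rw [one_mul, fl_el, fl_one]
        simp only [Option.some.injEq, reduceCtorEq, iff_false]
        intro h3
        exact ha ⟨rfl, h3.symm⟩
      · rw [fl_el, el_inv, inv_mul_cancel, fl_one]
        simp only [Option.some.injEq, reduceCtorEq, false_iff]
        intro h3
        exact hb ⟨rfl, h3.symm⟩
  by_cases hi : i = y.1
  · rw [if_pos hi]
    have key : ∀ g0 : FreeGroup ι, (∀ g, g ≠ g0 → (fl (g * w * el y) = some x ↔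
        fl (g * w) = some x)) → (fl g0 = some x ↔ fl (g0 * w) = some x) →
        ¬ (fl g0 = some x ↔ fl (g0 * w * el y) = some x) →
        {g : FreeGroup ι | ¬ (fl g = some x ↔ fl (g * (w * el y)) = some x)}.ncard =
        {g : FreeGroup ι | ¬ (fl g = some x ↔ fl (g * w) = some x)}.ncard + 1 := by
      intro g0 ha hb hc
      rw [← Set.ncard_insert_of_notMem (a := g0) _ hfin]
      · congr 1
        ext g
        simp only [Set.mem_insert_iff, Set.mem_ofPred_eq, ← mul_assoc]
        by_cases hg : g = g0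
        · subst hg
          tauto
        · rw [ha g hg]
          tauto
      · simp only [Set.mem_ofPred_eq, not_not]
        exact hb
    rcases eq_or_eq_inv (x := x) (y := y) hi with hxy | hxy
    · refine key w⁻¹ ?_ ?_ ?_
      · intro g hg
        refine hstep _ ?_ ?_
        · rintro ⟨h3, -⟩
          exact hg (eq_inv_of_mul_eq_one_left h3)
        · rintro ⟨-, h3⟩
          exact ne_inv y (hxy.symm.trans h3)
      · rw [inv_mul_cancel, fl_one, hxy]
        simpa using hw
      · rw [inv_mul_cancel, one_mul, fl_el, hxy]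
        simpa using hw
    · refine key (el x * w⁻¹) ?_ ?_ ?_
      · intro g hg
        refine hstep _ ?_ ?_
        · rintro ⟨-, h3⟩
          exact ne_inv y (h3.symm.trans hxy)
        · rintro ⟨h3, -⟩
          apply hg
          rw [← hxy] at h3
          rw [← h3, mul_inv_cancel_right]
      · rw [inv_mul_cancel_right, fl_el, fl_el_mul, hxy, inv_inv]
        simpa using hw
      · rw [inv_mul_cancel_right, hxy, el_inv, inv_mul_cancel, fl_one, ← el_inv, fl_el_mul,
          inv_inv]
        simpa using hw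
  · rw [if_neg hi, add_zero]
    congr 1
    ext g
    simp only [Set.mem_ofPred_eq, ← mul_assoc]
    rw [hstep (g * w)]
    · rintro ⟨-, h3⟩
      exact hi (congrArg Prod.fst h3)
    · rintro ⟨-, h3⟩
      exact hi (congrArg Prod.fst h3)

/-- the length of a tuple in terms of the cuts of the letters -/
theorem hgt_eq (w : ι → FreeGroup ι) : hgt w = ∑ i, cut w (hs {some (i, true)}) := by
  unfold hgt cut
  rw [Finset.sum_comm]
  refine Finset.sum_congr rfl fun j _ => ?_
  generalize w j = v
  induction v using ind_right with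
  | h1 => simp
  | hs w y ih h1 h2 =>
    have h3 : (w * el y).norm = w.norm + 1 := by
      rw [FreeGroup.norm, h2, FreeGroup.norm]
      simp
    rw [h3, ih, Finset.sum_congr rfl fun i _ => ncard_step w y i h1, Finset.sum_add_distrib]
    simp

private lemma autW_mk (v : W ι) (L : List (ι × Bool)) :
    autW v (FreeGroup.mk L) = FreeGroup.mk (L.map (ap v)) := by
  induction L with
  | nil => exact map_one _
  | cons x L ih => rw [List.map_cons, mk_cons, mk_cons, map_mul, ih, autW_el]

private lemma norm_autW_le (v : W ι) (g : FreeGroup ι) : (autW v g).norm ≤ g.norm := by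
  obtain ⟨L, hL, rfl, hw⟩ := exists_red g
  rw [autW_mk]
  refine FreeGroup.norm_mk_le.trans ?_
  rw [List.length_map, FreeGroup.norm, hw]

theorem hgt_autW (w : ι → FreeGroup ι) (v : W ι) : hgt (fun i => autW v (w i)) = hgt w := by
  unfold hgt
  refine Finset.sum_congr rfl fun i _ => le_antisymm (norm_autW_le v _) ?_
  have h := norm_autW_le v⁻¹ (autW v (w i))
  rwa [← MulAut.mul_apply, ← map_mul, inv_mul_cancel, map_one, MulAut.one_apply] at h

end Pool.Agent.Helper7.OP
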